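import Pool.Agent.Helper72_TOR.PartB

/-!
Part (b) of Q1: for every `i` and all large `n`, the finite-dimensional part of
`H_i(IA_n; ℚ)` (with respect to the conjugation action of `Aut(F_n)`, that is of `GL_n(ℤ)`) is all
of `H_i(IA_n; ℚ)`.
-/

set_option autoImplicit false

namespace Pool.Agent.Results.MP_680ca2_al.IAnFiniteDimensional

/-- For every `i` there is `N₀` such that for all `n ≥ N₀`, with `N = IA_n` the subgroup of the
automorphisms of the free group `F_n` which act trivially on the abelianization: every class `x` in
`H_i(IA_n; ℚ)` lies in a finite-dimensional subspace `W` which is preserved by the maps induced on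
homology by the conjugations by all `g` in `Aut(F_n)`. -/
theorem result :
    ∀ i : ℕ, ∃ N₀ : ℕ, ∀ n : ℕ, N₀ ≤ n →
      ∀ N : Subgroup (MulAut (FreeGroup (Fin n))),
        (∀ φ : MulAut (FreeGroup (Fin n)), φ ∈ N ↔
          ∀ x : FreeGroup (Fin n), Abelianization.of (φ x) = Abelianization.of x) →
        ∀ x : groupHomology (Rep.trivial ℚ N ℚ) i,
          ∃ W : Submodule ℚ (groupHomology (Rep.trivial ℚ N ℚ) i),
            x ∈ W ∧ FiniteDimensional ℚ W ∧
            ∀ g : MulAut (FreeGroup (Fin n)),
              ∀ f : N →* N,
                (∀ t : N, ((f t : N) : MulAut (FreeGroup (Fin n)))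
                    = g * (t : MulAut (FreeGroup (Fin n))) * g⁻¹) →
                ∀ ψ, ∀ y ∈ W,
                  (groupHomology.map f ψ i :
                    groupHomology (Rep.trivial ℚ N ℚ) i ⟶
                      groupHomology (Rep.trivial ℚ N ℚ) i).hom y ∈ W := by
  intro i
  obtain ⟨N₀, h⟩ := Pool.Agent.TOR.H72.partB_final i
  exact ⟨N₀, fun n hn => h n hn⟩

end Pool.Agent.Results.MP_680ca2_al.IAnFiniteDimensional
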